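import Mathlib

/-!
The quadratic characters of a 2-group with exactly one involution.
-/

set_option linter.unusedSectionVars false

namespace Pool.Agent.Y515.KN

open Finset

/-- a 2-power root of one with a large order has a power of order four -/
theorem exists_order_four {G : Type*} [Group G] {u : G} {a : ℕ} (ha : u ^ 2 ^ a = 1)
    (h1 : u ≠ 1) (h2 : u * u ≠ 1) : ∃ m : ℕ, u ^ m * u ^ m ≠ 1 ∧
      (u ^ m * u ^ m) * (u ^ m * u ^ m) = 1 := by
  classical
  have hex : ∃ a : ℕ, u ^ 2 ^ a = 1 := ⟨a, ha⟩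
  have hs := Nat.find_spec hex
  have hm := fun m => Nat.find_min hex (m := m)
  set b := Nat.find hex with hb
  have hb0 : b ≠ 0 := by
    intro h
    rw [h, pow_zero, pow_one] at hs
    exact h1 hs
  have hb1 : b ≠ 1 := by
    intro h
    rw [h, pow_one, pow_two] at hs
    exact h2 hs
  obtain ⟨c, hc⟩ : ∃ c, b = c + 2 := ⟨b - 2, by omega⟩
  refine ⟨2 ^ c, ?_, ?_⟩
  · rw [← pow_add, ← two_mul, ← pow_succ']
    exact hm (c + 1) (by omega)
  · rw [← pow_add, ← pow_add]
    rw [hc] at hs
    have : 2 ^ c + 2 ^ c + (2 ^ c + 2 ^ c) = 2 ^ (c + 2) := by ring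
    rw [this]
    exact hs

/-- A finite 2-group with exactly one involution `z` and a central element `x` with `x ^ 2 = z` is
cyclic. -/
theorem cyclic_of_central {G : Type*} [Group G] [Finite G] {a : ℕ} (hcard : Nat.card G = 2 ^ a)
    {z x : G} (hinv : ∀ y : G, y ≠ 1 → y * y = 1 → y = z) (hz : z * z = 1)
    (hx : ∀ y, y * x = x * y) (hxz : x * x = z) : IsCyclic G := by
  classical
  haveI := Fintype.ofFinite G
  have hpow : ∀ y : G, y ^ 2 ^ a = 1 := by
    intro y
    rw [← hcard]
    exact pow_card_eq_one'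
  have hxi : ∀ y, y * x⁻¹ = x⁻¹ * y := by
    intro y
    rw [eq_inv_mul_iff_mul_eq, ← mul_assoc, ← hx, mul_assoc, mul_inv_cancel, mul_one]
  have hzc : ∀ y, y * z = z * y := by
    intro y
    rw [← hxz, ← mul_assoc, hx y, mul_assoc, hx y, ← mul_assoc]
  -- square roots of z are central
  have hroot : ∀ y : G, y * y = z → ∀ w, w * y = y * w := by
    intro y hy w
    have h1 : (y * x⁻¹) * (y * x⁻¹) = 1 := by
      calc (y * x⁻¹) * (y * x⁻¹) = (y * y) * (x⁻¹ * x⁻¹) := by
            rw [mul_assoc, mul_assoc, ← mul_assoc x⁻¹ y, ← hxi y, mul_assoc y x⁻¹]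
        _ = 1 := by rw [hy, ← hxz, ← mul_inv_rev, mul_inv_cancel]
    have h2 : y * x⁻¹ = 1 ∨ y * x⁻¹ = z := by
      by_cases h : y * x⁻¹ = 1
      · exact Or.inl h
      · exact Or.inr (hinv _ h h1)
    rcases h2 with h | h
    · rw [mul_inv_eq_one] at h
      rw [h, hx w]
    · have h3 : y = z * x := by rw [← h, inv_mul_cancel_right]
      rw [h3, ← mul_assoc, hzc w, mul_assoc, hx w, mul_assoc]
  -- squares determine elements up to z
  have hsq : ∀ y w : G, y * y = w * w → y = w ∨ y = z * w := by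
    intro y w hyw
    set u := y * w⁻¹ with hu
    have hyu : y * u * y⁻¹ = u⁻¹ := by
      rw [hu, mul_inv_rev, inv_inv, ← mul_assoc y y, hyw]
      group
    have hyum : ∀ m : ℕ, y * u ^ m * y⁻¹ = (u ^ m)⁻¹ := by
      intro m
      rw [← conj_pow, hyu, inv_pow]
    have hy : y = u * w := by rw [hu, inv_mul_cancel_right]
    by_cases h1 : u = 1
    · left; rw [hy, h1, one_mul]
    · right
      have h2 : u * u = 1 := by
        by_contra h2
        obtain ⟨m, hm1, hm2⟩ := exists_order_four (hpow u) h1 h2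
        have h3 := hinv _ hm1 hm2
        have h4 := hroot _ h3 y
        have h5 := hyum m
        rw [h4, mul_inv_cancel_right] at h5
        apply hm1
        nth_rw 2 [h5]
        rw [mul_inv_cancel]
      rw [hy, hinv u h1 h2]
  -- counting
  have hcount : ∀ k : ℕ, (Finset.univ.filter (fun y : G => y ^ 2 ^ k = 1)).card ≤ 2 ^ k := by
    intro k
    induction k with
    | zero =>
      have : (Finset.univ.filter (fun y : G => y ^ 2 ^ 0 = 1)) ⊆ {1} := by
        intro y hy
        rw [Finset.mem_filter, pow_zero, pow_one] at hy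
        rw [Finset.mem_singleton]
        exact hy.2
      exact (Finset.card_le_card this).trans (by simp)
    | succ k ih =>
      have h1 : ∀ b ∈ (Finset.univ.filter (fun y : G => y ^ 2 ^ (k + 1) = 1)).image
          (fun y => y * y), ((Finset.univ.filter (fun y : G => y ^ 2 ^ (k + 1) = 1)).filter
          (fun y => y * y = b)).card ≤ 2 := by
        intro b hb
        rw [Finset.mem_image] at hb
        obtain ⟨w, _, rfl⟩ := hb
        have : ((Finset.univ.filter (fun y : G => y ^ 2 ^ (k + 1) = 1)).filter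
          (fun y => y * y = w * w)) ⊆ {w, z * w} := by
          intro y hy
          rw [Finset.mem_filter] at hy
          rw [Finset.mem_insert, Finset.mem_singleton]
          exact hsq y w hy.2
        exact (Finset.card_le_card this).trans Finset.card_le_two
      have h2 := Finset.card_le_mul_card_image _ 2 h1
      have h3 : (Finset.univ.filter (fun y : G => y ^ 2 ^ (k + 1) = 1)).image
          (fun y => y * y) ⊆ Finset.univ.filter (fun y : G => y ^ 2 ^ k = 1) := by
        intro b hb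
        rw [Finset.mem_image] at hb
        obtain ⟨w, hw, rfl⟩ := hb
        rw [Finset.mem_filter] at hw ⊢
        refine ⟨Finset.mem_univ _, ?_⟩
        rw [← pow_two, ← pow_mul, ← pow_succ']
        exact hw.2
      calc _ ≤ 2 * _ := h2
        _ ≤ 2 * 2 ^ k := Nat.mul_le_mul_left _ ((Finset.card_le_card h3).trans ih)
        _ = 2 ^ (k + 1) := by rw [pow_succ]; ring
  apply isCyclic_of_card_pow_eq_one_le
  intro n hn
  obtain ⟨k, hk1, hk2⟩ := (Nat.dvd_prime_pow Nat.prime_two).1 (Nat.gcd_dvd_right n (2 ^ a))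
  have hsub : (Finset.univ.filter (fun y : G => y ^ n = 1)) ⊆
      Finset.univ.filter (fun y : G => y ^ 2 ^ k = 1) := by
    intro y hy
    rw [Finset.mem_filter] at hy ⊢
    refine ⟨Finset.mem_univ _, ?_⟩
    rw [← hk2]
    exact pow_gcd_eq_one.2 ⟨hy.2, hpow y⟩
  refine (Finset.card_le_card hsub).trans ((hcount k).trans ?_)
  rw [← hk2]
  exact Nat.gcd_le_left _ hn

/-- Two elements generate a 2-group with one involution, in a strong form. -/
theorem exists_gens {R : Type*} [Group R] [Finite R] {z : R} {a : ℕ} (hcard : Nat.card R = 2 ^ a)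
    (hz1 : z ≠ 1) (hz : z * z = 1) (hinv : ∀ x : R, x ≠ 1 → x * x = 1 → x = z) :
    ∃ g r : R, ∀ w : R, (∃ m : ℤ, w = g ^ m) ∨ ∃ m : ℤ, w = r * g ^ m := by
  classical
  have hzc : ∀ w, w * z = z * w := by
    intro w
    have h1 : w * z * w⁻¹ = z := by
      apply hinv
      · intro h
        apply hz1
        have := congrArg (fun t => w⁻¹ * t * w) h
        simpa [mul_assoc] using this
      · calc w * z * w⁻¹ * (w * z * w⁻¹) = w * (z * z) * w⁻¹ := by group
          _ = 1 := by rw [hz, mul_one, mul_inv_cancel]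
    rw [mul_inv_eq_iff_eq_mul] at h1
    exact h1
  let N : Subgroup R := Subgroup.zpowers z
  have hN : ∀ w : R, w ∈ N ↔ w = 1 ∨ w = z := by
    intro w
    rw [Subgroup.mem_zpowers_iff]
    constructor
    · rintro ⟨m, rfl⟩
      have hz2 : z ^ (2 : ℤ) = 1 := by rw [zpow_two]; exact hz
      rcases Int.even_or_odd' m with ⟨n, hn | hn⟩
      · left; rw [hn, zpow_mul, hz2, one_zpow]
      · right; rw [hn, zpow_add, zpow_mul, hz2, one_zpow, one_mul, zpow_one]
    · rintro (h | h)
      · exact ⟨0, by rw [zpow_zero, h]⟩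
      · exact ⟨1, by rw [zpow_one, h]⟩
  haveI hNn : N.Normal := by
    constructor
    intro n hn g
    rw [hN] at hn ⊢
    rcases hn with h | h
    · left; rw [h, mul_one, mul_inv_cancel]
    · right; rw [h, hzc, mul_inv_cancel_right]
  by_cases htriv : ∀ w : R, w ∈ N
  · refine ⟨z, 1, fun w => ?_⟩
    left
    rcases (hN w).1 (htriv w) with h | h
    · exact ⟨0, by rw [zpow_zero, h]⟩
    · exact ⟨1, by rw [zpow_one, h]⟩
  push Not at htriv
  obtain ⟨w0, hw0⟩ := htriv
  haveI : Nontrivial (R ⧸ N) := by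
    refine ⟨(w0 : R ⧸ N), 1, ?_⟩
    rw [Ne, QuotientGroup.eq_one_iff]
    exact hw0
  have hpR : IsPGroup 2 R := IsPGroup.of_card hcard
  have hpQ : IsPGroup 2 (R ⧸ N) := hpR.to_quotient N
  haveI := hpQ.center_nontrivial
  obtain ⟨⟨t, htc⟩, ht⟩ := exists_ne (1 : Subgroup.center (R ⧸ N))
  have ht1 : t ≠ 1 := by
    intro h; apply ht; exact Subtype.ext h
  -- a central element of order two of the quotient
  have hex : ∃ b : ℕ, t ^ 2 ^ b = 1 := hpQ t
  have hs := Nat.find_spec hex
  have hm := fun m => Nat.find_min hex (m := m)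
  set b := Nat.find hex with hb
  have hb0 : b ≠ 0 := by
    intro h
    rw [h, pow_zero, pow_one] at hs
    exact ht1 hs
  obtain ⟨d, hd⟩ : ∃ d, b = d + 1 := ⟨b - 1, by omega⟩
  have hy1 : t ^ 2 ^ d ≠ 1 := hm d (by omega)
  have hy2 : t ^ 2 ^ d * t ^ 2 ^ d = 1 := by
    rw [hd] at hs
    rw [← pow_two, ← pow_mul, ← pow_succ]
    exact hs
  have hyc : t ^ 2 ^ d ∈ Subgroup.center (R ⧸ N) := Subgroup.pow_mem _ htc _
  obtain ⟨x, hx⟩ := QuotientGroup.mk_surjective (t ^ 2 ^ d)
  rw [← hx] at hy1 hy2 hyc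
  have hxN : x ∉ N := by
    intro h; exact hy1 ((QuotientGroup.eq_one_iff x).2 h)
  have hx1 : x ≠ 1 := fun h => hxN (by rw [h]; exact N.one_mem)
  have hxx : x * x = z := by
    have h1 : x * x ∈ N := by
      rw [← QuotientGroup.eq_one_iff, QuotientGroup.mk_mul]; exact hy2
    rcases (hN _).1 h1 with h | h
    · exfalso
      apply hxN
      rw [hN]
      exact Or.inr (hinv x hx1 h)
    · exact h
  have hconj : ∀ w : R, w * x = x * w ∨ w * x = z * (x * w) := by
    intro w
    have h1 : (w * x) * (x * w)⁻¹ ∈ N := by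
      rw [← QuotientGroup.eq_one_iff, QuotientGroup.mk_mul, QuotientGroup.mk_inv,
        QuotientGroup.mk_mul, QuotientGroup.mk_mul, mul_inv_eq_one]
      exact (Subgroup.mem_center_iff.1 hyc) w
    rcases (hN _).1 h1 with h | h
    · left; exact mul_inv_eq_one.1 h
    · right; exact mul_inv_eq_iff_eq_mul.1 h
  -- the centralizer
  let Cx : Subgroup R := Subgroup.centralizer {x}
  have hC : ∀ w : R, w ∈ Cx ↔ w * x = x * w := by
    intro w
    rw [Subgroup.mem_centralizer_singleton_iff]
  have hxC : x ∈ Cx := (hC x).2 rfl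
  have hzC : z ∈ Cx := (hC z).2 (hzc x).symm
  obtain ⟨e, _, he⟩ := (Nat.dvd_prime_pow Nat.prime_two).1 (hcard ▸ Subgroup.card_subgroup_dvd_card Cx)
  have hcyc : IsCyclic Cx := by
    apply cyclic_of_central (a := e) he (z := ⟨z, hzC⟩) (x := ⟨x, hxC⟩)
    · rintro ⟨y, hy⟩ h1 h2
      apply Subtype.ext
      apply hinv y
      · intro h; apply h1; exact Subtype.ext h
      · exact congrArg Subtype.val h2
    · exact Subtype.ext hz
    · rintro ⟨y, hy⟩
      exact Subtype.ext ((hC y).1 hy)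
    · exact Subtype.ext hxx
  obtain ⟨⟨g, hg⟩, hgen⟩ := hcyc.exists_generator
  have hgC : ∀ w ∈ Cx, ∃ m : ℤ, w = g ^ m := by
    intro w hw
    obtain ⟨m, hm⟩ := Subgroup.mem_zpowers_iff.1 (hgen ⟨w, hw⟩)
    refine ⟨m, ?_⟩
    have := congrArg Subtype.val hm
    simpa using this.symm
  by_cases hall : ∀ w : R, w ∈ Cx
  · exact ⟨g, 1, fun w => Or.inl (hgC w (hall w))⟩
  push Not at hall
  obtain ⟨r, hr⟩ := hall
  refine ⟨g, r, fun w => ?_⟩
  by_cases hw : w ∈ Cx
  · exact Or.inl (hgC w hw)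
  · right
    have h1 := (hconj r).resolve_left (fun h => hr ((hC r).2 h))
    have h2 := (hconj w).resolve_left (fun h => hw ((hC w).2 h))
    have h3 : r⁻¹ * w ∈ Cx := by
      rw [hC]
      have h4 : r * (r⁻¹ * w * x) = r * (x * (r⁻¹ * w)) := by
        calc r * (r⁻¹ * w * x) = w * x := by group
          _ = z * (x * w) := h2
          _ = (z * (x * r)) * (r⁻¹ * w) := by group
          _ = (r * x) * (r⁻¹ * w) := by rw [h1]
          _ = r * (x * (r⁻¹ * w)) := by group
      exact mul_left_cancel h4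
    obtain ⟨m, hm⟩ := hgC _ h3
    exact ⟨m, by rw [← hm]; group⟩

theorem card_hom_le {R : Type*} [Group R] [Finite R] {z : R} {a : ℕ} (hcard : Nat.card R = 2 ^ a)
    (hz1 : z ≠ 1) (hz : z * z = 1) (hinv : ∀ x : R, x ≠ 1 → x * x = 1 → x = z) :
    Nat.card (R →* ℤˣ) ≤ 4 := by
  classical
  obtain ⟨g, r, h⟩ := exists_gens hcard hz1 hz hinv
  have h1 : Function.Injective (fun ψ : R →* ℤˣ => (ψ g, ψ r)) := by
    intro ψ φ hψ
    simp only [Prod.mk.injEq] at hψ
    ext1 w
    rcases h w with ⟨m, rfl⟩ | ⟨m, rfl⟩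
    · rw [map_zpow, map_zpow, hψ.1]
    · rw [map_mul, map_mul, map_zpow, map_zpow, hψ.1, hψ.2]
  have h2 := Nat.card_le_card_of_injective _ h1
  refine h2.trans (le_of_eq ?_)
  rw [Nat.card_eq_fintype_card]
  rfl

end Pool.Agent.Y515.KN
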