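import Pool.Agent.Y1.KN.Stm8
import Pool.Agent.Y515.KN.Uniq

namespace Pool.Agent.Y515.KN

theorem uniq : Pool.Agent.Y1.KN.P_uniq := by
  intro R _ _ z a hcard hz1 hz hinv
  exact card_hom_le hcard hz1 hz hinv

end Pool.Agent.Y515.KN
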